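import Pool.Agent.helper74.VN.SpecC
import Pool.Agent.helper9.VQ.VD0

/-!
# vn:ND0: change of the cut-off of the beams (copy of VD0 for the class `OKN`)
-/

set_option autoImplicit false

open scoped MatrixGroups ContDiff Topology UpperHalfPlane ComplexConjugate ENNReal
open UpperHalfPlane MeasureTheory Filter Set

namespace Pool.Agent.VN

open Pool.Agent.RS Pool.Agent.VQ

theorem ND0_M0 {Γ : Subgroup SL(2, ℝ)} {k : ℝ} {B : ℕ → ℝ} {D : Dyn} (h : OKN Γ k B D)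
    (E : ℝ) (g : SL(2, ℝ)) : D.M E 0 g = Complex.I • 1 := by
  rw [Dyn.M, h.P0, h.Y0, inv_one, mul_one]

theorem ND0_zero {Γ : Subgroup SL(2, ℝ)} {k : ℝ} {B : ℕ → ℝ} {D : Dyn} (h : OKN Γ k B D)
    (ch : ℝ → ℝ) (ζ R : ℝ) (p : SL(2, ℝ) × ℝ) (v : ℂ) :
    fG D ch ζ R p v = pv D ch ζ ζ R 0 p v := by
  rw [fG, pv, b0, ND0_M0 h, h.a0, h.S0, h.fl0]
  have e1 : qf (Complex.I • (1 : Matrix (Fin 2) (Fin 2) ℂ)) v = Complex.I * ((‖v‖ ^ 2 : ℝ) : ℂ) := by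
    rw [← Complex.normSq_eq_norm_sq, Complex.normSq_apply]
    simp only [qf, Matrix.smul_apply, Matrix.one_apply, smul_eq_mul]
    push_cast
    simp
    ring
  rw [e1]
  have e2 : Complex.exp (Complex.I * (R : ℂ) * (((0 + rho D.U p.2 p.1 * v.re : ℝ) : ℂ) +
      Complex.I * ((‖v‖ ^ 2 : ℝ) : ℂ) / 2)) =
      Complex.exp ((-(R * ‖v‖ ^ 2 / 2) : ℝ) : ℂ) *
        Complex.exp (((R * rho D.U p.2 p.1 * v.re : ℝ) : ℂ) * Complex.I) := by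
    rw [← Complex.exp_add]
    congr 1
    push_cast
    linear_combination (↑R * (‖v‖ : ℂ) ^ 2 / 2) * Complex.I_mul_I
  rw [e2, ← Complex.ofReal_exp]
  push_cast
  ring

theorem ND0_proof (hVCT : VQ.VCT_stmt) (hVBR : VQ.VBR_stmt) (hNYB : NYB_stmt) : ND0_stmt := by
  intro κ hκ
  obtain ⟨C0, hC0, hyb⟩ := hNYB κ hκ
  refine ⟨C0 + 8, by linarith, ?_⟩
  intro ch K e ζ ζ1 ζ2 M hch hRg h12 h2
  obtain ⟨he0, hζ0, hζ1, heζ, h1⟩ := hRg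
  have hζ2 : ζ2 ≤ 1 / 8 := by nlinarith
  have hC00 : 0 < C0 := by linarith
  obtain ⟨R1, hR1, hbr⟩ := hVBR ch ζ hch hζ0 (by linarith)
  obtain ⟨R2, hR2, hcA⟩ := VD0_core hVCT ch K ζ ζ2 M C0 hch hζ0 (by linarith) hζ2 hC0
  obtain ⟨R3, hR3, hcB⟩ := VD0_core hVCT ch K ζ1 ζ2 M C0 hch (by linarith) h12 hζ2 hC0
  refine ⟨max R1 (max R2 R3), le_max_of_le_left hR1, ?_⟩
  intro R Γ B D p t hR hD hp ht
  have hRR1 : R1 ≤ R := (le_max_left _ _).trans hR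
  have hRR2 : R2 ≤ R := ((le_max_left _ _).trans (le_max_right _ _)).trans hR
  have hRR3 : R3 ≤ R := ((le_max_right _ _).trans (le_max_right _ _)).trans hR
  have hR1' : 1 ≤ R := hR1.trans hRR1
  have hRp : 0 < R := by linarith
  obtain ⟨-, -, -, -, -, -, -, hcl, hcu⟩ := hbr R hRR1
  have hcR0 : 0 ≤ cR ch ζ R := Real.sqrt_nonneg _
  -- general step
  have key : ∀ (a s : ℝ), a ≤ ζ2 → C0 * Real.exp (C0 * |s|) ≤ C0 * R ^ a →
      (∀ (N : ℝ) (c : ℂ) (Mx : Matrix (Fin 2) (Fin 2) ℂ), 1 ≤ N → N ≤ C0 * R ^ a →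
        ‖c‖ ≤ R ^ (3 / 2 : ℝ) * N → (∀ i j, ‖Mx i j‖ ≤ N) →
        (∀ v : ℂ, ‖v‖ ^ 2 ≤ N * (qf Mx v).im) →
        ContDiff ℝ ∞ (fun v : ℂ => ((ch (R ^ (1 - 2 * ζ2) * ‖v‖ ^ 2) -
          ch (R ^ (1 - 2 * a) * ‖v‖ ^ 2) : ℝ) : ℂ) *
            (c * Complex.exp (Complex.I * (R : ℂ) * (qf Mx v / 2)))) ∧
        (∀ v : ℂ, ((ch (R ^ (1 - 2 * ζ2) * ‖v‖ ^ 2) - ch (R ^ (1 - 2 * a) * ‖v‖ ^ 2) : ℝ) : ℂ) *
            (c * Complex.exp (Complex.I * (R : ℂ) * (qf Mx v / 2))) ≠ 0 →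
          ‖v‖ ≤ R ^ (-(1 / 2) + ζ2)) ∧
        ∀ k ≤ K, ∀ v : ℂ, ‖iteratedFDeriv ℝ k (fun v : ℂ => ((ch (R ^ (1 - 2 * ζ2) * ‖v‖ ^ 2) -
          ch (R ^ (1 - 2 * a) * ‖v‖ ^ 2) : ℝ) : ℂ) *
            (c * Complex.exp (Complex.I * (R : ℂ) * (qf Mx v / 2)))) v‖ ≤ R ^ (-M)) →
      Pk K ((C0 + 8) * ζ2) (R ^ (-M)) R (rho D.U p.2 (D.fl p.2 s p.1))
        (fun v => pv D ch ζ ζ2 R s p v - pv D ch ζ a R s p v) := by
    intro a s ha hN hc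
    obtain ⟨b1, b2, b3, -⟩ := hyb Γ B D hD p.2 s p.1 hp
    have hN1 : 1 ≤ C0 * Real.exp (C0 * |s|) := by
      have : 1 ≤ Real.exp (C0 * |s|) := Real.one_le_exp (by positivity)
      nlinarith
    obtain ⟨c1, c2, c3⟩ := hc (C0 * Real.exp (C0 * |s|))
      ((cR ch ζ R : ℂ) * D.a p.2 s p.1 * Complex.exp (((R * D.S p.2 s p.1 : ℝ) : ℂ) * Complex.I))
      (D.M p.2 s p.1) hN1 hN (by
        rw [norm_mul, norm_mul, Complex.norm_exp_ofReal_mul_I, mul_one, Complex.norm_real,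
          Real.norm_eq_abs, abs_of_nonneg hcR0]
        exact mul_le_mul hcu b2 (norm_nonneg _) (Real.rpow_nonneg hRp.le _))
      (fun i j => (b1 i j).2.2.2) b3
    have hexp : ζ2 ≤ (C0 + 8) * ζ2 := by nlinarith
    refine ⟨_, c1, fun v hv => (c2 v hv).trans ?_, fun k hk v => (c3 k hk v).trans ?_,
      fun v => VD0_split ch ζ a ζ2 R s p v⟩
    · exact Real.rpow_le_rpow_of_exponent_le hR1' (by linarith)
    · have g1 : (1 : ℝ) ≤ (R ^ (1 / 2 + (C0 + 8) * ζ2)) ^ k :=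
        one_le_pow₀ (Real.one_le_rpow hR1' (by nlinarith))
      have g2 : 0 ≤ R ^ (-M) := Real.rpow_nonneg hRp.le _
      nlinarith
  constructor
  · have h := key ζ 0 (by linarith) (by
      rw [abs_zero, mul_zero, Real.exp_zero]
      exact mul_le_mul_of_nonneg_left (Real.one_le_rpow hR1' hζ0.le) hC00.le)
      (fun N c Mx n1 n2 n3 n4 n5 => hcA R N c Mx hRR2 n1 n2 n3 n4 n5)
    have e2 : (fun v => pv D ch ζ ζ2 R 0 p v - fG D ch ζ R p v) =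
        fun v => pv D ch ζ ζ2 R 0 p v - pv D ch ζ ζ R 0 p v := by
      funext v
      rw [ND0_zero hD]
    rw [e2]
    rw [hD.fl0] at h
    exact h
  · refine key ζ1 t h12 ?_ (fun N c Mx n1 n2 n3 n4 n5 => hcB R N c Mx hRR3 n1 n2 n3 n4 n5)
    refine mul_le_mul_of_nonneg_left ?_ hC00.le
    have hlog : 0 ≤ Real.log R := Real.log_nonneg hR1'
    rw [Real.rpow_def_of_pos hRp]
    apply Real.exp_le_exp.2
    calc C0 * |t| ≤ C0 * (e * Real.log R) := mul_le_mul_of_nonneg_left ht hC00.le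
      _ = (C0 * e) * Real.log R := by ring
      _ ≤ ζ1 * Real.log R := by
          refine mul_le_mul_of_nonneg_right ?_ hlog
          nlinarith
      _ = Real.log R * ζ1 := mul_comm _ _

end Pool.Agent.VN
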