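import Pool.Agent.helper74.VN.SpecC
import Pool.Agent.helper18.VQ.VUL

/-!
# vn:NUL: localisation of the kernels (copy of VUL for the class `OKN`)
-/

set_option autoImplicit false

open scoped MatrixGroups ContDiff Topology UpperHalfPlane ComplexConjugate ENNReal
open UpperHalfPlane MeasureTheory Filter Set

namespace Pool.Agent.VN

open Pool.Agent.RS Pool.Agent.VQ

/-- the main estimate: a box in the coordinates `(h, ρ)` is contained in a box in the coordinates `(h, E)` -/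
theorem NUL_box (hVCD : VQ.VCD_stmt) (k C2 : ℝ) (hC2 : 1 ≤ C2) (U : ℍ → ℝ)
    (k3 : ∀ (E : ℝ) (g : SL(2, ℝ)), |E| ≤ k → 1 / C2 ≤ rho U E g ∧ rho U E g ≤ C2 ∧ rho U E g ^ 2 = U (g • I) + 2 * E)
    (k6 : ∀ (g : SL(2, ℝ)) (v : ℂ), ‖v‖ ≤ 1 → |Ug U g v - Ug U g 0| ≤ C2 * ‖v‖)
    (g1 g2 : SL(2, ℝ)) (E1 E2 s r : ℝ) (h1 : |E1| ≤ k) (h2 : |E2| ≤ k) (hs0 : 0 < s)
    (hs : s ≤ 1 / 8) (hr : (4 * C2 + 1) * s ≤ r) (hb : g1⁻¹ * g2 ∈ Bo s) (hρ : |rho U E1 g1 - rho U E2 g2| < s) :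
    Nb r (g1, E1) (g2, E2) := by
  obtain ⟨a1, a2, a3⟩ := k3 E1 g1 h1
  obtain ⟨b1, b2, b3⟩ := k3 E2 g2 h2
  have hC20 : 0 < 1 / C2 := by positivity
  have hcd := VUL_cd _ s (by linarith) hb
  have hcd1 : ‖cd ((g1⁻¹ * g2) • I)‖ ≤ 1 := by linarith
  have hmain := k6 g1 (cd ((g1⁻¹ * g2) • I)) hcd1
  have hcdi : ∀ z : ℍ, cdi (cd z) = z := fun z => (hVCD.1 z).2
  have hcd0 : (cdi 0 : ℍ) = I := by
    rw [← hVCD.2.2.1]
    exact hcdi I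
  have e1 : Ug U g1 (cd ((g1⁻¹ * g2) • I)) = U (g2 • I) := by
    unfold Ug
    rw [hcdi, ← mul_smul, mul_inv_cancel_left]
  have e2 : Ug U g1 0 = U (g1 • I) := by
    unfold Ug
    rw [hcd0]
  rw [e1, e2] at hmain
  refine ⟨?_, ?_⟩
  · have hsr : s ≤ r := by nlinarith
    rcases hb with hb | hb
    · exact Or.inl fun i j => (hb i j).trans_le hsr
    · exact Or.inr fun i j => (hb i j).trans_le hsr
  · show |E1 - E2| < r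
    have hδ0 : C2 * ‖cd ((g1⁻¹ * g2) • I)‖ ≤ 6 * C2 * s := by
      nlinarith [norm_nonneg (cd ((g1⁻¹ * g2) • I))]
    have hsq : |rho U E1 g1 ^ 2 - rho U E2 g2 ^ 2| ≤ 2 * C2 * s := by
      have h3 : rho U E1 g1 ^ 2 - rho U E2 g2 ^ 2 = (rho U E1 g1 + rho U E2 g2) * (rho U E1 g1 - rho U E2 g2) := by ring
      rw [h3, abs_mul, abs_of_nonneg (by linarith)]
      exact mul_le_mul (by linarith) hρ.le (abs_nonneg _) (by linarith)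
    have h4 : 2 * (E1 - E2) = (rho U E1 g1 ^ 2 - rho U E2 g2 ^ 2) + (U (g2 • I) - U (g1 • I)) := by
      rw [a3, b3]; ring
    have h5 : |2 * (E1 - E2)| ≤ 2 * C2 * s + 6 * C2 * s := by
      rw [h4]
      exact (abs_add_le _ _).trans (add_le_add hsq (hmain.trans hδ0))
    rw [abs_mul, abs_two] at h5
    nlinarith

theorem NUL_proof (hVCD : VQ.VCD_stmt) (hNOV : NOV_stmt) (hNFM : NFM_stmt) (hNUB : NUB_stmt) : NUL_stmt := by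
  intro k hk
  obtain ⟨C0, hC0, hOV⟩ := hNOV
  obtain ⟨C1, hC1, hFM⟩ := hNFM k hk
  obtain ⟨C2, hC2, hUB⟩ := hNUB k hk
  have hCC : 1 ≤ C0 * C1 := one_le_mul_of_one_le_of_one_le hC0 hC1
  refine ⟨5 * (C0 * C1), by linarith, ?_⟩
  intro ch e ζ ζ1 M B hch hRg
  obtain ⟨g1, g2, g3, g4, g5⟩ := hRg
  have hζ1 : 0 < ζ1 := g2.trans_le g3
  have hC1C : C1 ≤ C0 * C1 := by nlinarith
  have hRg1 : Rg C1 e ζ ζ1 := by
    refine ⟨g1, g2, g3, ?_, ?_⟩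
    · nlinarith
    · nlinarith
  have hη : 0 < C1 * ζ1 := by positivity
  have hCη : C0 * (C1 * ζ1) ≤ 1 / 5 := by nlinarith
  obtain ⟨K, R1, hR1, hOV1⟩ := hOV (M + 5) (C1 * ζ1) C2 hC2 hη (by linarith)
  obtain ⟨R2, hR2, hFM1⟩ := hFM ch K e ζ ζ1 B hch hRg1
  set x : ℝ := 4 * (C0 * (C1 * ζ1)) with hx
  have hx0 : 0 < x := by positivity
  set R3 : ℝ := (4 * C2 + 1 : ℝ) ^ (1 / x) with hR3
  set R4 : ℝ := (2 / k : ℝ) ^ (4 : ℝ) with hR4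
  refine ⟨max (max R1 R2) (max (max R3 R4) 65536), ?_, ?_⟩
  · exact hR1.trans ((le_max_left _ _).trans (le_max_left _ _))
  intro R t Γ D p q hR hD ht0 hte hp hq
  have hRR1 : R1 ≤ R := ((le_max_left _ _).trans (le_max_left _ _)).trans hR
  have hRR2 : R2 ≤ R := ((le_max_right _ _).trans (le_max_left _ _)).trans hR
  have hRR3 : R3 ≤ R := (((le_max_left _ _).trans (le_max_left _ _)).trans (le_max_right _ _)).trans hR
  have hRR5 : R4 ≤ R := (((le_max_right _ _).trans (le_max_left _ _)).trans (le_max_right _ _)).trans hR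
  have hRR4 : 65536 ≤ R := ((le_max_right _ _).trans (le_max_right _ _)).trans hR
  have hRpos : 0 < R := by linarith
  have hR1' : 1 ≤ R := by linarith
  have hR16 : R ^ (-(1 / 4) : ℝ) ≤ 1 / 16 := by
    have h1 : R ^ (-(1 / 4) : ℝ) ≤ (65536 : ℝ) ^ (-(1 / 4) : ℝ) :=
      Real.rpow_le_rpow_of_nonpos (by norm_num) hRR4 (by norm_num)
    have h2 : (65536 : ℝ) ^ (-(1 / 4) : ℝ) = 1 / 16 := by
      have h3 : (65536 : ℝ) = (16 : ℝ) ^ (4 : ℝ) := by norm_num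
      rw [h3, ← Real.rpow_mul (by norm_num)]
      norm_num [Real.rpow_neg_one]
    rwa [h2] at h1
  have h2k : 0 < 2 / k := by positivity
  have hRk : 2 * R ^ (-(1 / 4) : ℝ) ≤ k := by
    have h1 : R ^ (-(1 / 4) : ℝ) ≤ R4 ^ (-(1 / 4) : ℝ) :=
      Real.rpow_le_rpow_of_nonpos (Real.rpow_pos_of_pos h2k _) hRR5 (by norm_num)
    have h2 : R4 ^ (-(1 / 4) : ℝ) = k / 2 := by
      rw [hR4, ← Real.rpow_mul h2k.le]
      norm_num [Real.rpow_neg_one]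
    rw [h2] at h1
    linarith
  have hW : ∀ y : SL(2, ℝ) × ℝ, y ∈ GW 2 R → |y.2| ≤ k := by
    intro y hy
    have h1 : y.2 ∈ Wi 2 R := hy.2
    rw [abs_le]
    exact ⟨by linarith [h1.1], by linarith [h1.2]⟩
  set s : ℝ := R ^ (-(1 / 2) + C0 * (C1 * ζ1)) with hs
  set r : ℝ := R ^ (-(1 / 2) + 5 * (C0 * C1) * ζ1) with hr
  have hs0 : 0 < s := Real.rpow_pos_of_pos hRpos _
  have hs8 : s ≤ 1 / 8 := by
    have h1 : s ≤ R ^ (-(1 / 4) : ℝ) := Real.rpow_le_rpow_of_exponent_le hR1' (by linarith)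
    linarith
  have hsr : (4 * C2 + 1) * s ≤ r := by
    have h1 : r = s * R ^ x := by
      rw [hr, hs, ← Real.rpow_add hRpos, hx]
      congr 1
      ring
    have h2 : (4 * C2 + 1 : ℝ) ≤ R ^ x := by
      have h3 : (4 * C2 + 1 : ℝ) = R3 ^ x := by
        rw [hR3, ← Real.rpow_mul (by linarith), one_div, inv_mul_cancel₀ hx0.ne', Real.rpow_one]
      rw [h3]
      exact Real.rpow_le_rpow (Real.rpow_nonneg (by linarith) _) hRR3 hx0.le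
    rw [h1]
    nlinarith
  obtain ⟨f1, -, f3, -, -⟩ := hFM1 R t Γ D hRR2 hD (by rwa [abs_of_nonneg ht0])
  set m : ℝ := R ^ (3 / 2 + C1 * ζ1) with hm
  have hm0 : 0 ≤ m := (Real.rpow_pos_of_pos hRpos _).le
  obtain ⟨-, -, k3, -, -, k6, -⟩ := hUB Γ B D.U hD.pot
  have k3' : ∀ (E : ℝ) (g : SL(2, ℝ)), |E| ≤ k → 1 / C2 ≤ rho D.U E g ∧ rho D.U E g ≤ C2 ∧ rho D.U E g ^ 2 = D.U (g • I) + 2 * E := by
    intro E g hE
    obtain ⟨a1, a2, a3, -⟩ := k3 E g hE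
    exact ⟨a1, a2, a3⟩
  have k6' : ∀ (g : SL(2, ℝ)) (v : ℂ), ‖v‖ ≤ 1 → |Ug D.U g v - Ug D.U g 0| ≤ C2 * ‖v‖ := fun g v hv => (k6 g v hv).2
  have hrho : ∀ (E : ℝ) (g : SL(2, ℝ)), |E| ≤ k → rho D.U E g ∈ Icc (1 / C2 : ℝ) C2 := by
    intro E g hE
    obtain ⟨a1, a2, -⟩ := k3 E g hE
    exact ⟨a1, a2⟩
  have hsize : m * m * R ^ (-1 + 3 * (C1 * ζ1)) ≤ R ^ (2 + 5 * (C0 * C1) * ζ1) := by
    rw [hm, ← Real.rpow_add hRpos, ← Real.rpow_add hRpos]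
    refine Real.rpow_le_rpow_of_exponent_le hR1' ?_
    nlinarith
  have hsmall : m * m * R ^ (-(M + 5)) ≤ R ^ (-M) := by
    rw [hm, ← Real.rpow_add hRpos, ← Real.rpow_add hRpos]
    refine Real.rpow_le_rpow_of_exponent_le hR1' ?_
    nlinarith
  -- two packets
  have core : ∀ (F1 F2 : ℂ → ℂ) (h1 h2 : SL(2, ℝ)) (E1 E2 : ℝ), |E1| ≤ k → |E2| ≤ k →
      Pk K (C1 * ζ1) m R (rho D.U E1 h1) F1 → Pk K (C1 * ζ1) m R (rho D.U E2 h2) F2 →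
      ‖∫ z : ℍ, F1 (cd (h1⁻¹ • z)) * conj (F2 (cd (h2⁻¹ • z)))‖ ≤ R ^ (2 + 5 * (C0 * C1) * ζ1) ∧
      ((∫ z : ℍ, F1 (cd (h1⁻¹ • z)) * conj (F2 (cd (h2⁻¹ • z)))) ≠ 0 → dist (h1 • I : ℍ) (h2 • I) ≤ 1) ∧
      (¬Nb r (h1, E1) (h2, E2) → ‖∫ z : ℍ, F1 (cd (h1⁻¹ • z)) * conj (F2 (cd (h2⁻¹ • z)))‖ ≤ R ^ (-M)) := by
    intro F1 F2 h1 h2 E1 E2 hE1 hE2 hF1 hF2
    obtain ⟨o1, o2, o3⟩ := hOV1 R _ _ m m F1 F2 h1 h2 hRR1 (hrho E1 h1 hE1) (hrho E2 h2 hE2) hm0 hm0 hF1 hF2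
    refine ⟨o1.trans hsize, o2, fun hn => (o3 ?_).trans hsmall⟩
    rintro ⟨b1, b2⟩
    exact hn (NUL_box hVCD k C2 hC2 D.U k3' k6' h1 h2 E1 E2 s r hE1 hE2 hs0 hs8 hsr b1 b2)
  have hpv := f1.pk p hp
  have hfGp := f3.pk p hp
  have hfGq := f3.pk q hq
  rw [hD.fl0] at hfGp hfGq
  -- beams
  obtain ⟨c1, c2, c3⟩ := core _ _ _ _ p.2 q.2 (hW p hp) (hW q hq) hpv hfGq
  have hI1 : ∫ z : ℍ, conj (psi D ch ζ ζ1 R t p z) * Gp D.U ch ζ R q z =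
      conj (∫ z : ℍ, pv D ch ζ ζ1 R t p (cd ((D.fl p.2 t p.1)⁻¹ • z)) * conj (fG D ch ζ R q (cd (q.1⁻¹ • z)))) := by
    rw [VUL_conj]
    rfl
  obtain ⟨d1, -, d3⟩ := core _ _ _ _ p.2 q.2 (hW p hp) (hW q hq) hfGp hfGq
  have hI2 : ∫ z : ℍ, conj (Gp D.U ch ζ R p z) * Gp D.U ch ζ R q z =
      conj (∫ z : ℍ, fG D ch ζ R p (cd (p.1⁻¹ • z)) * conj (fG D ch ζ R q (cd (q.1⁻¹ • z)))) := by
    rw [VUL_conj]
    rfl
  have hnc : ∀ w : ℂ, ‖conj w‖ = ‖w‖ := fun w => Complex.norm_conj w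
  refine ⟨?_, ?_, ?_, ?_, ?_⟩
  · rw [hI1, hnc]; exact c1
  · intro h
    refine c2 fun h0 => h ?_
    rw [hI1, h0, map_zero]
  · intro h
    rw [hI1, hnc]
    exact c3 h
  · rw [hI2, hnc]; exact d1
  · intro h
    rw [hI2, hnc]
    exact d3 h

end Pool.Agent.VN
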